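import Pool.Agent.H30R2.NS.Main

set_option autoImplicit false

/-! # Randomized negation-symmetric networks for k-SAT

A network reads a `k`-CNF over the variables `X` (one input variable for each possible clause); its
other gates compute arbitrary functions of the number of their true inputs. It is symmetric under a
negation pattern `a : X → ZMod 2` if negating simultaneously all variables `x` with `a x = 1`
(a permutation of the clauses) extends to an automorphism of the network. A randomized network is a
probability distribution on networks.

Lower bound: if each network of the distribution is symmetric under a group of `2 ^ r` negation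
patterns and `k`-SAT is decided with error probability at most `1 / 3` (already on formulas with at
most `2 ^ (k - 1) * (r + 1)` clauses), then the expected number of gates is at least
`2 ^ ((1 - C (ln k)² / k) r)`.

Upper bounds: exhaustive search over the `2 ^ n` assignments is a deterministic network symmetric
under all `2 ^ n` patterns; and every randomized network can be made symmetric under a group of
`2 ^ r` patterns at the cost of a factor `2 ^ r` in size and a factor two in the error. -/

namespace Pool.Agent.Results.MP_0e79d0_lc.NegationSymmetry

open Pool.Agent.H30R2.NS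

theorem result :
    (∃ C : ℝ, ∀ k : ℕ, 3 ≤ k → ∀ r : ℕ, k ≤ r →
      ∀ (X : Type) (D : AddSubgroup (X → ZMod 2)), Nat.card D = 2 ^ r →
      ∀ R : RNet (Clause k X), R.SymUnder D →
      R.DecidesOn (Small k X (2 ^ (k - 1) * (r + 1))) (1 / 3) →
      (2 : ℝ) ^ ((1 - C * (Real.log k ^ 2 / k)) * r) ≤ R.size) ∧
    (∀ (k : ℕ) (X : Type) [Fintype X],
      ∃ (Gt : Type) (_ : Fintype Gt) (N : Net (Clause k X) Gt),
        (∀ a, N.NegSym a) ∧ (∀ Φ, N.eval Φ = true ↔ Sat Φ) ∧
        Nat.card Gt = 2 ^ Fintype.card X + (2 * Fintype.card X) ^ k + 1) ∧
    (∀ (k M r : ℕ) (X : Type) (D : AddSubgroup (X → ZMod 2)), Nat.card D = 2 ^ r →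
      ∀ R : RNet (Clause k X), R.DecidesOn (Small k X M) (1 / 6) →
      ∃ R' : RNet (Clause k X), R'.SymUnder D ∧ R'.DecidesOn (Small k X M) (1 / 3) ∧
        R'.size = 2 ^ r * R.size + 1) := by
  classical
  refine ⟨seth_bound, fun k X _ => ?_, converse⟩
  exact ⟨Clause k X ⊕ ((X → ZMod 2) ⊕ Unit), inferInstance, brute k X, brute_sym k X,
    fun Φ => brute_eval Φ, brute_card⟩

end Pool.Agent.Results.MP_0e79d0_lc.NegationSymmetry
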