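import Mathlib
import Pool.Agent.H520R2.NMDefs
import Pool.Agent.H559R4.SatDefs
import Pool.Agent.H559R8.Defs
import Pool.Agent.H559R8.Main

/-!
# The randomized strong exponential time hypothesis for circuits with few non-monotone gates

Consider circuits of AND and OR gates of fan-in two and of arbitrary further gates, the `i`-th of
them with `w i` input wires, that get a CNF formula with `n` variables and `M` clauses (given by
its incidence matrix) as input.  Let `P ≥ 1`.  Call a circuit *small* if `∏ (w i + 1) ≤ P` and

  `(number of AND and OR gates + ∑ w i) * P < 2 ^ ((1 - δ) * n)`.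

For all `δ > 0` and `A` there is a constant `c` such that, if `n` is large and `n ^ c * P ≤ M`,

* there is a distribution on formulas whose clauses have at most `log₂ (n ^ c * P)` literals
  (the uniform distribution on a finite family) such that every small circuit decides the
  satisfiability of the random formula correctly with probability less than `1 / 2 + 1 / n ^ A`;
* every randomised small circuit (a probability distribution `w` on a finite set `Ω` of small
  circuits) decides the satisfiability of some such formula correctly with probability less than
  `1 / 2 + 1 / n ^ A`.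

So randomised monotone circuits (`P = 1`), with any error below `1 / 2 - 1 / poly(n)`, need
`2 ^ ((1 - δ) * n)` gates for formulas with `n ^ c` clauses of length `c * log₂ n`, and the same
holds up to polynomial factors with `O(log n)` NOT gates.  Trying all the assignments is a
monotone circuit with at most `2 ^ n * (2 * n * M)` gates.

Proof.  For the problem to tell whether a graph with `k` parts of `q = n ^ O(1)` vertices each
contains a clique with one vertex of each part (`k * log₂ q = n`), the approximation method with
spread-type sunflowers shows that a monotone circuit with `q ^ ((1 - δ) * k)` gates accepts a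
random clique with a probability that exceeds the one for a random `(k - 1)`-partite graph by at
most `1 / n ^ A` (approximators of the circuit with at most `r ^ l` sets of size `l`).  For the
non-monotone gates, the disjunction of `P * n ^ A` such problems is put into one formula, and a
chain of random restrictions is followed (the hard distribution of `Pool.Agent.H560R2`).
-/

namespace Pool.Agent.Results.MP_0e79d0_lc.RandomizedFewNonMonotone

open Filter Finset Pool.Agent.H559R4 Pool.Agent.H559R8 Pool.Agent.H520R2.NM

open Classical in
theorem result (δ : ℝ) (hδ : 0 < δ) (A : ℕ) : ∃ c : ℕ, ∀ᶠ n : ℕ in atTop,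
    ∀ M P : ℕ, 1 ≤ P → n ^ c * P ≤ M →
      (∃ (Λ : Type) (_ : Fintype Λ) (_ : Nonempty Λ) (φ : Λ → Fin M × Fin n × Bool → Bool),
        (∀ l, Narrow (Nat.log 2 (n ^ c * P)) (φ l)) ∧
        ∀ (N : ℕ) (C : Circuit (Fin M × Fin n × Bool) N) (out : Wire (Fin M × Fin n × Bool) N),
          (C.fanins.map (· + 1)).prod ≤ P →
          ((C.size + C.fanins.sum : ℕ) : ℝ) * P < 2 ^ ((1 - δ) * n) →
          ((univ.filter (fun l =>
            (out.eval (φ l) (C.vals (φ l)) = true ↔ Sat (φ l)))).card : ℝ) <
            (1 / 2 + 1 / (n : ℝ) ^ A) * Fintype.card Λ) ∧
      ∀ (Ω : Type) [Fintype Ω] (w : Ω → ℝ), (∀ r, 0 ≤ w r) → ∑ r, w r = 1 →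
        ∀ (N : Ω → ℕ) (C : ∀ r, Circuit (Fin M × Fin n × Bool) (N r))
          (out : ∀ r, Wire (Fin M × Fin n × Bool) (N r)),
          (∀ r, ((C r).fanins.map (· + 1)).prod ≤ P) →
          (∀ r, (((C r).size + (C r).fanins.sum : ℕ) : ℝ) * P < 2 ^ ((1 - δ) * n)) →
          ∃ φ, Narrow (Nat.log 2 (n ^ c * P)) φ ∧
            ∑ r ∈ univ.filter (fun r => ((out r).eval φ ((C r).vals φ) = true ↔ Sat φ)), w r <
              1 / 2 + 1 / (n : ℝ) ^ A :=
  main_rand δ hδ A

end Pool.Agent.Results.MP_0e79d0_lc.RandomizedFewNonMonotone
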