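import Mathlib
import Pool.Agent.H592R3.MobCnf

/-!
Randomized small-depth circuits for the satisfiability of CNF formulas, given by their clause
matrices, whose clauses have `C d log n` literals, need `2 ^ ((1 - ε) n)` gates.
-/

open SmallDepth DomAC0 Filter H592R3

theorem Pool.Agent.Results.MP_0e79d0_lc.SmallDepth.result :
    (∀ ε : ℝ, 0 < ε → ∃ C : ℝ, 0 < C ∧ ∀ n d w M S : ℕ, 2 ≤ n → 1 ≤ d →
      C * (d * Real.log n) ≤ w → w ≤ n → n * 2 ^ w ≤ M →
      ∀ R : RandCircuit (Fin M × Fin n × Bool), R.Bounded d S →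
      (∀ x : Fin M × Fin n × Bool → Bool, WidthLe x w →
        (∀ α β, Models x α → Models x β → α = β) → R.Correct x (∃ α, Models x α)) →
      (2 : ℝ) ^ ((1 - ε) * n) < S) ∧
    (∀ a b : ℕ, a < b → ∃ K : ℕ, ∀ c e d : ℕ, ∀ᶠ n : ℕ in atTop, ∀ w M L : ℕ,
      w = K * (d + 1) * Nat.clog 2 n → M = n * 2 ^ w → L = M * n * 2 →
      ¬ ∃ R : RandCircuit (Fin M × Fin n × Bool),
        R.Bounded d (c * (L + 1) ^ e * 2 ^ (a * n / b)) ∧
        ∀ x : Fin M × Fin n × Bool → Bool, WidthLe x w → R.Correct x (∃ α, Models x α)) := by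
  refine ⟨fun ε hε => cnf_lower2 ε hε, ?_⟩
  intro a b hab
  have hb : (0 : ℝ) < b := by exact_mod_cast (by omega : 0 < b)
  have habR : (a : ℝ) / b < 1 := by rw [div_lt_one hb]; exact_mod_cast hab
  obtain ⟨ε, hε⟩ : ∃ ε : ℝ, ε = (1 - (a : ℝ) / b) / 2 := ⟨_, rfl⟩
  have hε0 : 0 < ε := by rw [hε]; linarith
  obtain ⟨C₀, hC₀, hlow⟩ := cnf_lower2 ε hε0
  refine ⟨⌈C₀⌉₊, ?_⟩
  intro c e d
  obtain ⟨K, hK⟩ : ∃ K : ℕ, K = ⌈C₀⌉₊ := ⟨_, rfl⟩
  rw [← hK]
  obtain ⟨q, hq⟩ : ∃ q : ℕ, q = c + (4 + 2 * (K * (d + 1))) * e := ⟨_, rfl⟩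
  have hlim : ∀ᶠ n : ℕ in atTop, (n : ℝ) ^ q ≤ ((2 : ℝ) ^ ε) ^ n := by
    have h1 : (1 : ℝ) < 2 ^ ε := Real.one_lt_rpow (by norm_num) hε0
    have h2 := tendsto_pow_const_div_const_pow_of_one_lt q h1
    filter_upwards [h2.eventually (eventually_lt_nhds (by norm_num : (0 : ℝ) < 1))] with n hn
    rw [div_lt_one (by positivity)] at hn
    exact hn.le
  have hwlim : ∀ᶠ n : ℕ in atTop, K * (d + 1) * Nat.clog 2 n ≤ n := by
    have h1 : (1 : ℝ) < 2 := by norm_num
    have h2 := (isLittleO_log_rpow_atTop (r := 1) (by norm_num)).bound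
      (c := 1 / (4 * ((K * (d + 1) : ℕ) : ℝ) + 4)) (by positivity)
    have h3 := tendsto_natCast_atTop_atTop (R := ℝ) |>.eventually h2
    filter_upwards [h3, eventually_ge_atTop (2 * (K * (d + 1)) + 2)] with n hn hn1
    have hn1' : (1 : ℝ) ≤ n := by exact_mod_cast (by omega : 1 ≤ n)
    have hn2 : 2 * ((K * (d + 1) : ℕ) : ℝ) + 2 ≤ n := by exact_mod_cast hn1
    rw [Real.norm_of_nonneg (Real.log_nonneg hn1'), Real.rpow_one,
      Real.norm_of_nonneg (by positivity)] at hn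
    have h4 : (Nat.clog 2 n : ℝ) ≤ 2 * Real.log n + 1 := by
      have h5 : 2 ^ Nat.clog 2 n < 2 * n := by
        have h5 := Nat.pow_pred_clog_lt_self (b := 2) (by norm_num) (by omega : 1 < n)
        have h6 : Nat.clog 2 n = (Nat.clog 2 n).pred + 1 := by
          have := Nat.clog_pos (b := 2) (by norm_num) (by omega : 2 ≤ n)
          exact (Nat.succ_pred_eq_of_pos this).symm
        rw [h6, pow_succ]
        omega
      have h6 : (2 : ℝ) ^ Nat.clog 2 n ≤ 2 * n := by exact_mod_cast h5.le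
      have h7 := Real.log_le_log (by positivity) h6
      rw [Real.log_pow, Real.log_mul (by norm_num) (by positivity)] at h7
      have h8 := Real.log_two_gt_d9
      have h9 : (0 : ℝ) ≤ (Nat.clog 2 n : ℝ) := by positivity
      have h10 := Real.log_nonneg hn1'
      by_contra h11
      rw [not_le] at h11
      nlinarith
    have h10 : ((K * (d + 1) : ℕ) : ℝ) * (Nat.clog 2 n : ℝ) ≤ n := by
      obtain ⟨A, hA⟩ : ∃ A : ℝ, A = ((K * (d + 1) : ℕ) : ℝ) := ⟨_, rfl⟩
      have hA0 : 0 ≤ A := by rw [hA]; positivity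
      rw [← hA] at hn hn2 ⊢
      rw [div_mul_eq_mul_div, one_mul, le_div_iff₀ (by positivity)] at hn
      calc A * (Nat.clog 2 n : ℝ) ≤ A * (2 * Real.log n + 1) := by gcongr
        _ ≤ n := by
          have h11 := Real.log_nonneg hn1'
          nlinarith
    exact_mod_cast h10
  filter_upwards [hlim, hwlim, eventually_ge_atTop 2] with n h1 h2 h3
  intro w M L hw hM hL
  rintro ⟨R, hR, hcor⟩
  have hnR : (2 : ℝ) ≤ n := by exact_mod_cast h3
  have hmain := hlow n (max d 1) w M _ h3 (le_max_right _ _) ?_ (hw ▸ h2) hM.ge R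
    (fun ω => ⟨(hR ω).1.trans (le_max_left _ _), (hR ω).2⟩) (fun x hx _ => hcor x hx)
  · -- the size is too small
    have hcl : 2 ^ Nat.clog 2 n ≤ n ^ 2 := by
      have h4 : 2 ^ Nat.clog 2 n < 2 * n := by
        have h5 := Nat.pow_pred_clog_lt_self (b := 2) (by norm_num) (by omega : 1 < n)
        have h6 : Nat.clog 2 n = (Nat.clog 2 n).pred + 1 := by
          have := Nat.clog_pos (b := 2) (by norm_num) (by omega : 2 ≤ n)
          exact (Nat.succ_pred_eq_of_pos this).symm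
        rw [h6, pow_succ]
        omega
      nlinarith
    have hLn : c * (L + 1) ^ e ≤ n ^ q := by
      have h5 : c ≤ n ^ c := (Nat.lt_pow_self (by omega)).le
      have h6 : 2 ^ w ≤ n ^ (2 * (K * (d + 1))) := by
        rw [hw, mul_comm (K * (d + 1)) (Nat.clog 2 n), pow_mul]
        calc (2 ^ Nat.clog 2 n) ^ (K * (d + 1)) ≤ (n ^ 2) ^ (K * (d + 1)) :=
              Nat.pow_le_pow_left hcl _
          _ = n ^ (2 * (K * (d + 1))) := (pow_mul n 2 (K * (d + 1))).symm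
      have h7 : L + 1 ≤ n ^ (4 + 2 * (K * (d + 1))) := by
        have h8 : 1 ≤ n * n * 2 ^ w := Nat.one_le_iff_ne_zero.2 (by positivity)
        calc L + 1 ≤ 4 * (n * n * 2 ^ w) := by rw [hL, hM]; nlinarith
          _ ≤ (n * n) * (n * n * n ^ (2 * (K * (d + 1)))) := by
              apply Nat.mul_le_mul (by nlinarith)
              exact Nat.mul_le_mul_left _ h6
          _ = n ^ (4 + 2 * (K * (d + 1))) := by rw [pow_add]; ring
      calc c * (L + 1) ^ e ≤ n ^ c * (n ^ (4 + 2 * (K * (d + 1)))) ^ e :=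
            Nat.mul_le_mul h5 (Nat.pow_le_pow_left h7 e)
        _ = n ^ q := by rw [← pow_mul, ← pow_add, hq]
    have hfl : ((2 : ℝ) ^ (a * n / b : ℕ)) ≤ 2 ^ ((a : ℝ) / b * n) := by
      rw [← Real.rpow_natCast]
      apply Real.rpow_le_rpow_of_exponent_le (by norm_num)
      calc (((a * n / b : ℕ) : ℕ) : ℝ) ≤ ((a * n : ℕ) : ℝ) / b := Nat.cast_div_le
        _ = (a : ℝ) / b * n := by push_cast; ring
    have hup : ((c * (L + 1) ^ e * 2 ^ (a * n / b) : ℕ) : ℝ) ≤ 2 ^ ((1 - ε) * n) := by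
      have h5 : ((c * (L + 1) ^ e : ℕ) : ℝ) ≤ (n : ℝ) ^ q := by exact_mod_cast hLn
      rw [Nat.cast_mul]
      calc ((c * (L + 1) ^ e : ℕ) : ℝ) * ((2 ^ (a * n / b) : ℕ) : ℝ)
          ≤ ((2 : ℝ) ^ ε) ^ n * 2 ^ ((a : ℝ) / b * n) := by
            push_cast at h5 ⊢
            exact mul_le_mul (h5.trans h1) hfl (by positivity) (by positivity)
        _ = 2 ^ (ε * n + (a : ℝ) / b * n) := by
            rw [← Real.rpow_natCast ((2 : ℝ) ^ ε) n, ← Real.rpow_mul (by norm_num),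
              ← Real.rpow_add (by norm_num)]
        _ = 2 ^ ((1 - ε) * n) := by
            congr 1
            have h9 : (a : ℝ) / b = 1 - 2 * ε := by rw [hε]; ring
            rw [h9]; ring
    linarith
  · have h8 : C₀ ≤ K := by rw [hK]; exact Nat.le_ceil _
    have h9 : Real.log n ≤ (Nat.clog 2 n : ℝ) := by
      have h10 : (n : ℝ) ≤ 2 ^ (Nat.clog 2 n) := by
        exact_mod_cast Nat.le_pow_clog (by norm_num) n
      calc Real.log n ≤ Real.log (2 ^ (Nat.clog 2 n)) := Real.log_le_log (by linarith) h10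
        _ = Nat.clog 2 n * Real.log 2 := Real.log_pow _ _
        _ ≤ Nat.clog 2 n * 1 := by
            gcongr
            linarith [Real.log_two_lt_d9]
        _ = Nat.clog 2 n := mul_one _
    have h11 : ((max d 1 : ℕ) : ℝ) ≤ ((d + 1 : ℕ) : ℝ) := by
      exact_mod_cast (by omega : max d 1 ≤ d + 1)
    have h12 : (0 : ℝ) ≤ Real.log n := Real.log_nonneg (by linarith)
    calc C₀ * (((max d 1 : ℕ) : ℝ) * Real.log n) ≤ K * (((d + 1 : ℕ) : ℝ) * (Nat.clog 2 n : ℝ)) := by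
          gcongr
      _ = (w : ℝ) := by rw [hw]; push_cast; ring
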