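import Pool.Agent.H550R2.LP.Asym

set_option autoImplicit false

/-! # The strong exponential time hypothesis for symmetric linear programs

A linear program with `d` nonnegative variables over the input variables `I` is an affine space `L`
of pairs (input vector, vector of length `d`); it accepts an input vector `v` if `(v, y) ∈ L` for
some `y ≥ 0`. Here the input is the characteristic vector of a `k`-CNF, a set of clauses. A
permutation of the input variables is a symmetry of the program if it extends, by a permutation of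
the nonnegative variables, to an automorphism of the program; `neg a` negates simultaneously the
variables `x` with `a x = 1` (a permutation of the clauses). A random adaptive algorithm is a
probability distribution on decision trees whose tests are linear programs. -/

namespace Pool.Agent.Results.MP_0e79d0_lc.SymmetricLP

open Pool.Agent.H550R2.Lin
open Pool.Agent.H550R2.Lift (ind)
open Pool.Agent.H30R2.NS (Clause neg Sat Small)

/-- 1. A random adaptive algorithm whose linear programs are symmetric under a group of `2 ^ r`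
negation patterns and which decides `k`-SAT with error probability at most `1 / 3` for formulas
with at most `2 ^ (k - 1) * (r + 1)` clauses uses at least `2 ^ ((1 - C (ln k)² / k) r) - 1`
nonnegative variables in the expectation (the sum over all programs of the tree).
2. Hence for all `a < b` there is `k ≥ 3` such that polynomial in `n` times `2 ^ (a n / b)` does
not suffice when the programs are symmetric under all negation patterns.
3. For all `k` a single program with `2 ^ n` nonnegative variables, symmetric under all negation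
patterns, is exact.
4. Every linear program for `k`-SAT can be made symmetric under a group of `2 ^ r` negation
patterns at the cost of a factor `2 ^ r`. -/
theorem result :
    (∃ C : ℝ, ∀ k : ℕ, 3 ≤ k → ∀ r : ℕ, k ≤ r →
      ∀ (X : Type) (Γ : AddSubgroup (X → ZMod 2)), Nat.card Γ = 2 ^ r →
      ∀ R : RLAlg (Clause k X), (∀ a ∈ Γ, R.Sym (neg a)) →
      R.DecidesOn (Small k X (2 ^ (k - 1) * (r + 1))) →
      (2 : ℝ) ^ ((1 - C * (Real.log k ^ 2 / k)) * r) ≤ R.size + 1) ∧
    (∀ a b : ℕ, 0 < b → a < b → ∃ k : ℕ, 3 ≤ k ∧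
      ∀ K : ℕ, ∃ n0 : ℕ, ∀ n : ℕ, n0 ≤ n → ∀ R : RLAlg (Clause k (Fin n)),
        (∀ c : Fin n → ZMod 2, R.Sym (neg c)) →
        R.size ≤ K * ((n : ℝ) + 1) ^ K * 2 ^ ((a : ℝ) / b * n) →
        ¬ R.DecidesOn (Small k (Fin n) (2 ^ (k - 1) * (n + 1)))) ∧
    (∀ (k : ℕ) (X : Type) [Fintype X],
      ∃ P : LP (Clause k X) (Fin (2 ^ Fintype.card X)), (∀ a, ∃ π, P.IsAut (neg a) π) ∧
        ∀ Φ : Set (Clause k X), P.Acc (ind Φ) ↔ ¬ Sat Φ) ∧
    (∀ (k M r : ℕ) (X : Type) (Γ : AddSubgroup (X → ZMod 2)), Nat.card Γ = 2 ^ r →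
      ∀ (d : ℕ) (P : LP (Clause k X) (Fin d)) (s : Prop),
      (∀ Φ ∈ Small k X M,
        (Sat Φ → (P.Acc (ind Φ) ↔ s)) ∧ (¬ Sat Φ → (P.Acc (ind Φ) ↔ ¬ s))) →
      ∃ P' : LP (Clause k X) (Fin (2 ^ r * d)), (∀ a ∈ Γ, ∃ π, P'.IsAut (neg a) π) ∧
        ∀ Φ ∈ Small k X M,
          (Sat Φ → (P'.Acc (ind Φ) ↔ s)) ∧ (¬ Sat Φ → (P'.Acc (ind Φ) ↔ ¬ s))) :=
  ⟨seth_lp, seth_exact, brute_lp, conv_lp⟩

end Pool.Agent.Results.MP_0e79d0_lc.SymmetricLP
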